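import Mathlib
import Pool.Agent.R309.LegendreB

namespace Pool.Agent.Results.MP_87bea5_an.EvenDegreeOnly

open Polynomial Finset Pool.Agent.R309.Leg

/-- The Legendre polynomials, by Rodrigues' formula. -/
noncomputable def legendre (n : ℕ) : ℝ[X] :=
  C (((2 : ℝ) ^ n * (n.factorial : ℝ))⁻¹) * derivative^[n] ((X ^ 2 - 1) ^ n)

/-- Legendre multiplier sequences: whenever a finite sum of a_k P_k has only real zeros, so does
the sum of gamma_k a_k P_k. -/
def IsLegendreMS (γ : ℕ → ℝ) : Prop :=
  ∀ (n : ℕ) (a : ℕ → ℝ), OnlyRealZeros (∑ k ∈ range n, C (a k) * legendre k) →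
    OnlyRealZeros (∑ k ∈ range n, C (γ k * a k) * legendre k)

/-- The substitution 1 - 2x. -/
noncomputable def T : ℝ[X] := C (-2) * X + C 1
/-- The inverse substitution. -/
noncomputable def S : ℝ[X] := C (-1 / 2) * X + C (1 / 2)

lemma T_comp_S : T.comp S = X := by
  simp only [T, S, add_comp, mul_comp, C_comp, X_comp, mul_add, ← mul_assoc, ← C_mul]
  norm_num

lemma iter_comp_T (f : ℝ[X]) (n : ℕ) :
    derivative^[n] (f.comp T) = C ((-2) ^ n) * (derivative^[n] f).comp T := by
  induction n with
  | zero => simp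
  | succ n ih =>
    rw [Function.iterate_succ_apply', ih, derivative_C_mul, derivative_comp,
      Function.iterate_succ_apply']
    have : derivative T = C (-2) := by
      simp only [T, derivative_add, derivative_C_mul, derivative_X, derivative_C]
      simp
    rw [this, pow_succ, C_mul]
    ring

lemma fact_sl (n : ℕ) : (n.factorial : ℝ[X]) * sl n = derivative^[n] (X ^ n * (1 - X) ^ n) := by
  have h := congrArg (Polynomial.map (Int.castRingHom ℝ)) (factorial_mul_shiftedLegendre_eq n)
  rw [← iterate_derivative_map] at h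
  simpa [sl] using h

lemma legendre_comp_T (n : ℕ) : (legendre n).comp T = sl n := by
  have h1 : ((X ^ 2 - 1 : ℝ[X]) ^ n).comp T = C ((-4) ^ n) * (X ^ n * (1 - X) ^ n) := by
    rw [pow_comp, sub_comp, pow_comp, X_comp, one_comp, ← mul_pow, C_pow, ← mul_pow]
    congr 1
    simp only [T]
    have e1 : (C (-2) : ℝ[X]) = -2 := by rw [C_neg, C_ofNat]
    have e2 : (C (-4) : ℝ[X]) = -4 := by rw [C_neg, C_ofNat]
    rw [e1, e2, C_1]
    ring
  have h2 := iter_comp_T ((X ^ 2 - 1) ^ n) n
  rw [h1, iterate_derivative_C_mul, ← fact_sl] at h2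
  rw [legendre, mul_comp, C_comp]
  have h3 : (derivative^[n] ((X ^ 2 - 1 : ℝ[X]) ^ n)).comp T
      = C ((2 : ℝ) ^ n * (n.factorial : ℝ)) * sl n := by
    have h4 : (C ((-2 : ℝ) ^ n) : ℝ[X]) ≠ 0 := by
      rw [Ne, C_eq_zero]; positivity
    apply mul_left_cancel₀ h4
    rw [← h2, ← mul_assoc, ← mul_assoc, ← C_mul]
    congr 1
    have h5 : (-2 : ℝ) ^ n * (2 ^ n * (n.factorial : ℝ)) = (-4) ^ n * n.factorial := by
      rw [← mul_assoc, ← mul_pow]; norm_num
    rw [h5, C_mul]
    simp
  rw [h3, ← mul_assoc, ← C_mul, inv_mul_cancel₀ (by positivity), C_1, one_mul]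

lemma sl_comp_S (n : ℕ) : (sl n).comp S = legendre n := by
  rw [← legendre_comp_T, comp_assoc, T_comp_S, comp_X]

lemma expand (N : ℕ) : ∀ f : ℝ[X], f.degree < (N : WithBot ℕ) →
    ∃ a : ℕ → ℝ, f = ∑ k ∈ range N, C (a k) * sl k := by
  induction N with
  | zero =>
    intro f hf
    refine ⟨0, ?_⟩
    have : f = 0 := by
      rw [← degree_eq_bot]
      exact Nat.WithBot.lt_zero_iff.mp hf
    simp [this]
  | succ N ih =>
    intro f hf
    have hN : (sl N).coeff N ≠ 0 := by
      rw [coeff_sl]
      simp [Nat.choose_eq_zero_iff]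
    set b := f.coeff N / (sl N).coeff N with hb
    obtain ⟨a, ha⟩ := ih (f - C b * sl N) (by
      rw [degree_lt_iff_coeff_zero]
      intro m hm
      rw [coeff_sub, coeff_C_mul]
      rcases hm.eq_or_lt with hm | hm
      · rw [← hm, hb, div_mul_cancel₀ _ hN, sub_self]
      · rw [degree_lt_iff_coeff_zero] at hf
        rw [hf m hm, coeff_eq_zero_of_natDegree_lt (by rw [natDegree_sl]; exact hm)]
        ring)
    refine ⟨fun k => if k = N then b else a k, ?_⟩
    rw [sum_range_succ]
    simp only [if_true]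
    have : ∑ k ∈ range N, C (if k = N then b else a k) * sl k = ∑ k ∈ range N, C (a k) * sl k := by
      apply sum_congr rfl
      intro k hk
      rw [if_neg (by have := mem_range.mp hk; omega)]
    rw [this, ← ha]
    ring

/-- A Legendre multiplier sequence interpolated by a real polynomial Q satisfies Q(x) = Q(-1-x);
in particular no polynomial of odd degree interpolates a Legendre multiplier sequence. -/
theorem result : ∀ Q : ℝ[X], (IsLegendreMS (fun k => Q.eval (k : ℝ)) → Q.comp (-1 - X) = Q) ∧
    (Odd Q.natDegree → ¬ IsLegendreMS (fun k => Q.eval (k : ℝ))) := by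
  intro Q
  obtain ⟨A, B, hQ⟩ := decomp Q
  have key : IsLegendreMS (fun k => Q.eval (k : ℝ)) → B = 0 := by
    intro hms
    apply B_zero (A := A)
    intro n
    obtain ⟨a, ha⟩ := expand (n + 1) (X ^ n) (by
      rw [degree_X_pow]; exact_mod_cast Nat.lt_succ_self n)
    have h1 : S ^ n = ∑ k ∈ range (n + 1), C (a k) * legendre k := by
      have := congrArg (fun p => p.comp S) ha
      simp only [X_pow_comp, Polynomial.sum_comp, mul_comp, C_comp, sl_comp_S] at this
      exact this
    have h2 : OnlyRealZeros (∑ k ∈ range (n + 1), C (a k) * legendre k) := by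
      rw [← h1]
      right
      intro z hz
      rw [map_pow] at hz
      have h3 := eq_zero_of_pow_eq_zero hz
      simp only [S, map_add, map_mul, aeval_C, aeval_X] at h3
      have h4 := congrArg Complex.im h3
      simp at h4
      exact h4
    have h5 := hms (n + 1) a h2
    have h6 := orz_comp h5 (-2) 1 (by norm_num)
    have h7 : (∑ k ∈ range (n + 1), C ((fun k : ℕ => Q.eval (k : ℝ)) k * a k) * legendre k).comp
        (C (-2) * X + C 1) = G A B (X ^ n) := by
      rw [ha, map_sum, Polynomial.sum_comp]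
      apply sum_congr rfl
      intro k _
      rw [mul_comp, C_comp]
      have h8 : (legendre k).comp (C (-2) * X + C 1) = sl k := legendre_comp_T k
      have h9 : G A B (C (a k) * sl k) = C (a k) * (C (Q.eval (k : ℝ)) * sl k) := by
        rw [← smul_eq_C_mul, map_smul, G_sl, ← hQ, smul_eq_C_mul]
      rw [h8, h9, ← mul_assoc, ← C_mul, mul_comm (a k)]
    rw [h7] at h6
    exact h6
  have hmm : mm.comp (-1 - X : ℝ[X]) = mm := by
    simp only [mm, add_comp, pow_comp, X_comp]
    ring
  constructor
  · intro hms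
    have hB := key hms
    rw [hB] at hQ
    simp only [zero_comp, mul_zero, add_zero] at hQ
    rw [hQ, comp_assoc, hmm]
  · intro hodd hms
    have hB := key hms
    rw [hB] at hQ
    simp only [zero_comp, mul_zero, add_zero] at hQ
    have hdeg : (mm : ℝ[X]).natDegree = 2 := by
      unfold mm
      compute_degree!
    rw [hQ, natDegree_comp, hdeg] at hodd
    exact (Nat.not_odd_iff_even.mpr (even_two.mul_left _)) hodd

end Pool.Agent.Results.MP_87bea5_an.EvenDegreeOnly
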